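import Pool.Agent.W170.Z3.Stm

/-!
# R3: size of the double residues
-/

open Polynomial Pool.Agent.H337R2 Filter Topology

namespace Pool.Agent.W638.Z3

open Pool.Agent.W170.Z3

/-! ### The certificate -/

/-- `40 x₁` -/
def q1 (i : ℕ) : ℕ := (38400 + (241 + 2 * i)) / (2 * (241 + 2 * i))

/-- `40 x₂` -/
def q2 (i : ℕ) : ℕ := min ((57600 + (2 * i + 1)) / (2 * (2 * i + 1))) 4000

/-- `40 x₃` -/
def q3 (i : ℕ) : ℕ := min ((80 * (121 + 2 * i) + (719 - 2 * i)) / (2 * (719 - 2 * i))) 4000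

def Ks (i : ℕ) : ℕ := if q3 i < 40 then 61 + i else 60 + i

def pn (i b : ℕ) : ℕ → ℕ
  | 0 => 1
  | j + 1 => pn i b j * (5 * (301 + i) ^ 2 + 18 * hN j) ^ (2 * sG b j)

def pd (b : ℕ) : ℕ → ℕ
  | 0 => 1
  | j + 1 => pd b j * 18000 ^ (2 * sG b j)

def AN (i b : ℕ) : ℕ := 2 ^ tG b * ((40 + q1 i) ^ (361 + i) * 40 ^ 240) *
  ((40 + q2 i) ^ (361 + i) * 40 ^ 360) * ((40 + q3 i) ^ 840 * 40 ^ (2 * Ks i)) * pn i b 10

def BN (i b : ℕ) : ℕ := (40 ^ (361 + i) * q1 i ^ 240) * (40 ^ (361 + i) * q2 i ^ 360) *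
  (40 ^ 840 * q3 i ^ (2 * Ks i)) * pd b 10

def chk (i b : ℕ) : Bool := Nat.ble 1 (q1 i) && (Nat.ble 1 (q2 i) && (Nat.ble 1 (q3 i) &&
  Nat.ble (AN i b) (BN i b * 2 ^ 2840)))

def chkAll : Bool := (List.range 360).all fun i => (List.range 9).all fun b => chk i b

theorem chkAll_true : chkAll = true := by decide +kernel

theorem chk_true {i b : ℕ} (hi : i < 360) (hb : b ≤ 8) : 1 ≤ q1 i ∧ 1 ≤ q2 i ∧ 1 ≤ q3 i ∧
    AN i b ≤ BN i b * 2 ^ 2840 := by
  have h := chkAll_true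
  unfold chkAll at h
  rw [List.all_eq_true] at h
  have h1 := h i (List.mem_range.2 hi)
  rw [List.all_eq_true] at h1
  have h2 := h1 b (List.mem_range.2 (by omega))
  unfold chk at h2
  simp only [Bool.and_eq_true, Nat.ble_eq] at h2
  exact h2

/-! ### The real form of the certificate -/

noncomputable def x1 (i : ℕ) : ℝ := (q1 i : ℝ) / 40
noncomputable def x2 (i : ℕ) : ℝ := (q2 i : ℝ) / 40
noncomputable def x3 (i : ℕ) : ℝ := (q3 i : ℝ) / 40

noncomputable def PP (i b : ℕ) : ℝ :=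
  ∏ j ∈ Finset.range 10, ((((301 + i : ℕ) : ℝ) / 60) ^ 2 + (hG j : ℝ)) ^ (2 * sG b j)

theorem PP_eq (i b : ℕ) : PP i b = (pn i b 10 : ℝ) / (pd b 10 : ℝ) := by
  have h : ∀ m : ℕ, ∏ j ∈ Finset.range m,
      ((((301 + i : ℕ) : ℝ) / 60) ^ 2 + (hG j : ℝ)) ^ (2 * sG b j) =
      (pn i b m : ℝ) / (pd b m : ℝ) := by
    intro m
    induction m with
    | zero => simp [pn, pd]
    | succ m ih =>
      rw [Finset.prod_range_succ, ih, pn, pd, Nat.cast_mul, Nat.cast_mul, Nat.cast_pow,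
        Nat.cast_pow, ← div_mul_div_comm, ← div_pow]
      congr 2
      unfold hG
      push_cast
      ring
  exact h 10

theorem pd_pos (b m : ℕ) : 0 < pd b m := by
  induction m with
  | zero => simp [pd]
  | succ m ih => rw [pd]; positivity

noncomputable def UR (i b : ℕ) : ℝ := 2 ^ tG b * ((1 + x1 i) ^ (361 + i) * (x1 i)⁻¹ ^ 240) *
  ((1 + x2 i) ^ (361 + i) * (x2 i)⁻¹ ^ 360) * ((1 + x3 i) ^ 840 * (x3 i)⁻¹ ^ (2 * Ks i)) * PP i b

theorem fr (q a c : ℕ) : (1 + (q : ℝ) / 40) ^ a * ((q : ℝ) / 40)⁻¹ ^ c =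
    (((40 + q) ^ a * 40 ^ c : ℕ) : ℝ) / ((40 ^ a * q ^ c : ℕ) : ℝ) := by
  have h1 : 1 + (q : ℝ) / 40 = ((40 + q : ℕ) : ℝ) / 40 := by push_cast; ring
  rw [h1, inv_div, div_pow, div_pow, div_mul_div_comm]
  push_cast
  rfl

theorem UR_le {i b : ℕ} (hi : i < 360) (hb : b ≤ 8) : UR i b ≤ 2 ^ 2840 := by
  obtain ⟨h1, h2, h3, h4⟩ := chk_true hi hb
  have hB : 0 < BN i b := by
    unfold BN
    exact Nat.mul_pos (Nat.mul_pos (Nat.mul_pos (Nat.mul_pos (Nat.pow_pos (by norm_num))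
      (Nat.pow_pos h1)) (Nat.mul_pos (Nat.pow_pos (by norm_num)) (Nat.pow_pos h2)))
      (Nat.mul_pos (Nat.pow_pos (by norm_num)) (Nat.pow_pos h3))) (pd_pos b 10)
  have e : UR i b = (AN i b : ℝ) / (BN i b : ℝ) := by
    unfold UR x1 x2 x3 AN BN
    rw [fr, fr, fr, PP_eq]
    generalize (40 + q1 i) ^ (361 + i) * 40 ^ 240 = a1
    generalize 40 ^ (361 + i) * q1 i ^ 240 = b1
    generalize (40 + q2 i) ^ (361 + i) * 40 ^ 360 = a2
    generalize 40 ^ (361 + i) * q2 i ^ 360 = b2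
    generalize (40 + q3 i) ^ 840 * 40 ^ (2 * Ks i) = a3
    generalize 40 ^ 840 * q3 i ^ (2 * Ks i) = b3
    push_cast
    rw [← mul_div_assoc (2 ^ tG b : ℝ), div_mul_div_comm, div_mul_div_comm, div_mul_div_comm]
  rw [e, div_le_iff₀ (by exact_mod_cast hB)]
  have h5 : ((AN i b : ℕ) : ℝ) ≤ ((BN i b * 2 ^ 2840 : ℕ) : ℝ) := by exact_mod_cast h4
  rw [Nat.cast_mul, Nat.cast_pow] at h5
  rw [mul_comm]
  exact h5

/-! ### Powers -/

noncomputable def DD (y : ℝ) : ℝ := 1 + y + y⁻¹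

theorem powA {y : ℝ} (hy : 1 ≤ y) {e M N R : ℕ} (h : e ≤ M * N + R) :
    y ^ e ≤ (y ^ M) ^ N * DD y ^ R := by
  have hy0 : 0 < y := by linarith
  have hD : y ≤ DD y := by
    unfold DD
    have := inv_pos.2 hy0
    linarith
  calc y ^ e ≤ y ^ (M * N + R) := pow_le_pow_right₀ hy h
    _ = (y ^ M) ^ N * y ^ R := by rw [pow_add, pow_mul]
    _ ≤ (y ^ M) ^ N * DD y ^ R := by
        refine mul_le_mul_of_nonneg_left ?_ (by positivity)
        exact pow_le_pow_left₀ hy0.le hD R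

theorem powB {y : ℝ} (hy0 : 0 < y) (hy : y ≤ 1) {e M N R : ℕ} (h : M * N ≤ e + R) :
    y ^ e ≤ (y ^ M) ^ N * DD y ^ R := by
  have hD : y⁻¹ ≤ DD y := by
    unfold DD
    linarith
  have hyi : 0 < y⁻¹ := inv_pos.2 hy0
  calc y ^ e = y ^ (e + R) * y⁻¹ ^ R := by
        rw [pow_add, mul_assoc, ← mul_pow, mul_inv_cancel₀ hy0.ne', one_pow, mul_one]
    _ ≤ y ^ (M * N) * y⁻¹ ^ R := by
        refine mul_le_mul_of_nonneg_right ?_ (by positivity)
        exact pow_le_pow_of_le_one hy0.le hy h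
    _ = (y ^ M) ^ N * y⁻¹ ^ R := by rw [pow_mul]
    _ ≤ (y ^ M) ^ N * DD y ^ R := by
        refine mul_le_mul_of_nonneg_left ?_ (by positivity)
        exact pow_le_pow_left₀ hyi.le hD R

theorem powC {y : ℝ} (hy0 : 0 < y) {e M N R : ℕ} (h : e ≤ M * N + R) (h' : M * N ≤ e + R) :
    y ^ e ≤ (y ^ M) ^ N * DD y ^ R := by
  rcases le_total 1 y with hy | hy
  · exact powA hy h
  · exact powB hy0 hy h'

theorem choose_le {x : ℝ} (hx : 0 < x) (m j : ℕ) :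
    ((m.choose j : ℕ) : ℝ) ≤ (1 + x) ^ m * x⁻¹ ^ j := by
  rw [inv_pow, ← div_eq_mul_inv, le_div_iff₀ (by positivity)]
  rcases lt_or_ge m j with h | h
  · rw [Nat.choose_eq_zero_of_lt h]
    simp
    positivity
  · rw [add_comm, add_pow]
    have h1 := Finset.single_le_sum (f := fun i => x ^ i * 1 ^ (m - i) * ((m.choose i : ℕ) : ℝ))
      (s := Finset.range (m + 1)) (fun i _ => by positivity) (Finset.mem_range.2 (by omega : j < m + 1))
    simp only [one_pow, mul_one] at h1 ⊢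
    rw [mul_comm]
    exact h1

/-! ### The bound -/

noncomputable def cst (i : ℕ) : ℝ := DD (1 + x1 i) ^ 2000 * DD (x1 i)⁻¹ ^ 2000 *
  (DD (1 + x2 i) ^ 2000 * DD (x2 i)⁻¹ ^ 2000) * (DD (1 + x3 i) ^ 2000 * DD (x3 i)⁻¹ ^ 2000)

theorem DD_pos {y : ℝ} (hy : 0 < y) : 0 < DD y := by
  unfold DD
  have := inv_pos.2 hy
  linarith

theorem x_pos {i : ℕ} (hi : i < 360) : 0 < x1 i ∧ 0 < x2 i ∧ 0 < x3 i := by
  obtain ⟨h1, h2, h3, -⟩ := chk_true hi (Nat.zero_le 8)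
  have e1 : (0 : ℝ) < (q1 i : ℝ) := by exact_mod_cast h1
  have e2 : (0 : ℝ) < (q2 i : ℝ) := by exact_mod_cast h2
  have e3 : (0 : ℝ) < (q3 i : ℝ) := by exact_mod_cast h3
  unfold x1 x2 x3
  exact ⟨by positivity, by positivity, by positivity⟩

theorem cst_pos {i : ℕ} (hi : i < 360) : 0 < cst i := by
  obtain ⟨h1, h2, h3⟩ := x_pos hi
  have a1 := DD_pos (show 0 < 1 + x1 i by linarith)
  have a2 := DD_pos (show 0 < 1 + x2 i by linarith)
  have a3 := DD_pos (show 0 < 1 + x3 i by linarith)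
  have b1 := DD_pos (inv_pos.2 h1)
  have b2 := DD_pos (inv_pos.2 h2)
  have b3 := DD_pos (inv_pos.2 h3)
  unfold cst
  positivity

theorem cell_bound (h2 : StR2) {n k b i : ℕ} (hn : 1 ≤ n)
    (hk : k ∈ Finset.Icc (6 * n + 1) (12 * n)) (hb : b ≤ 8) (hi : i < 360)
    (hlo : (360 + i) * n < 60 * k) (hhi : 60 * k ≤ (361 + i) * n) :
    ((RK n k : ℚ) : ℝ) * 2 ^ (tG b * (n / 60)) *
      (∏ j ∈ Finset.range 10, (((k : ℝ) / n - 1) ^ 2 + (hG j : ℝ)) ^ (2 * sG b j)) ^ (n / 60) ≤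
      49 * cst i * (n : ℝ) ^ 2 * 2 ^ (2840 * (n / 60)) := by
  obtain ⟨hx1, hx2, hx3⟩ := x_pos hi
  have hk' := Finset.mem_Icc.1 hk
  set N := n / 60 with hN
  obtain ⟨r, hr, hnr⟩ : ∃ r, r < 60 ∧ n = 60 * N + r := ⟨n % 60, Nat.mod_lt _ (by norm_num), by omega⟩
  have hkN : k ≤ (361 + i) * N + (361 + i) := by
    have e1 : 60 * k ≤ 60 * ((361 + i) * N) + (361 + i) * r := by
      calc 60 * k ≤ (361 + i) * n := hhi
        _ = (361 + i) * (60 * N + r) := by rw [← hnr]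
        _ = 60 * ((361 + i) * N) + (361 + i) * r := by ring
    have e2 : (361 + i) * r ≤ (361 + i) * 60 := Nat.mul_le_mul_left _ (by omega)
    omega
  have hkN' : (360 + i) * N ≤ k := by
    have e1 : 60 * ((360 + i) * N) ≤ 60 * k := by
      calc 60 * ((360 + i) * N) = (360 + i) * (60 * N) := by ring
        _ ≤ (360 + i) * n := Nat.mul_le_mul_left _ (by omega)
        _ ≤ 60 * k := hlo.le
    omega
  have hs1 : (361 + i) * N = 300 * N + (61 + i) * N := by ring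
  have hs0 : (360 + i) * N = 300 * N + (60 + i) * N := by ring
  -- the six powers
  have p1 : (1 + x1 i) ^ (k - 1) ≤ ((1 + x1 i) ^ (361 + i)) ^ N * DD (1 + x1 i) ^ 2000 :=
    powA (by linarith) (by omega)
  have p2 : (1 + x2 i) ^ (k - 1) ≤ ((1 + x2 i) ^ (361 + i)) ^ N * DD (1 + x2 i) ^ 2000 :=
    powA (by linarith) (by omega)
  have p3 : (1 + x3 i) ^ (2 * (7 * n - 1)) ≤ ((1 + x3 i) ^ 840) ^ N * DD (1 + x3 i) ^ 2000 :=
    powA (by linarith) (by omega)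
  have r1 : (x1 i)⁻¹ ^ (4 * n) ≤ ((x1 i)⁻¹ ^ 240) ^ N * DD (x1 i)⁻¹ ^ 2000 :=
    powC (inv_pos.2 hx1) (by omega) (by omega)
  have r2 : (x2 i)⁻¹ ^ (6 * n) ≤ ((x2 i)⁻¹ ^ 360) ^ N * DD (x2 i)⁻¹ ^ 2000 :=
    powC (inv_pos.2 hx2) (by omega) (by omega)
  have r3 : (x3 i)⁻¹ ^ (2 * (k - 5 * n - 1)) ≤ ((x3 i)⁻¹ ^ (2 * Ks i)) ^ N * DD (x3 i)⁻¹ ^ 2000 := by
    by_cases hq : q3 i < 40
    · have hx : x3 i ≤ 1 := by
        unfold x3
        have : (q3 i : ℝ) < 40 := by exact_mod_cast hq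
        rw [div_le_one (by norm_num)]
        exact this.le
      refine powA ((one_le_inv₀ hx3).2 hx) ?_
      have hK : Ks i = 61 + i := by unfold Ks; rw [if_pos hq]
      rw [hK, mul_assoc]
      omega
    · have hx : 1 ≤ x3 i := by
        unfold x3
        have : (40 : ℝ) ≤ q3 i := by exact_mod_cast (not_lt.1 hq)
        rw [one_le_div (by norm_num)]
        exact this
      refine powB (inv_pos.2 hx3) (inv_le_one_of_one_le₀ hx) ?_
      have hK : Ks i = 60 + i := by unfold Ks; rw [if_neg hq]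
      rw [hK, mul_assoc]
      omega
  -- the product over the nodes
  have hn0 : (0 : ℝ) < n := by exact_mod_cast hn
  have hkap : (k : ℝ) / n - 1 ≤ ((301 + i : ℕ) : ℝ) / 60 := by
    rw [sub_le_iff_le_add, div_le_iff₀ hn0]
    have : (60 : ℝ) * k ≤ (361 + i) * n := by exact_mod_cast hhi
    push_cast
    nlinarith
  have hkap0 : 0 ≤ (k : ℝ) / n - 1 := by
    rw [sub_nonneg, one_le_div hn0]
    exact_mod_cast (by omega : n ≤ k)
  have hP : ∏ j ∈ Finset.range 10, (((k : ℝ) / n - 1) ^ 2 + (hG j : ℝ)) ^ (2 * sG b j) ≤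
      PP i b := by
    unfold PP
    refine Finset.prod_le_prod (fun j _ => ?_) (fun j _ => ?_)
    · have : (0 : ℝ) ≤ (hG j : ℝ) := by unfold hG; push_cast; positivity
      positivity
    · have : (0 : ℝ) ≤ (hG j : ℝ) := by unfold hG; push_cast; positivity
      refine pow_le_pow_left₀ (by positivity) ?_ _
      have := pow_le_pow_left₀ hkap0 hkap 2
      linarith
  have hP0 : 0 ≤ ∏ j ∈ Finset.range 10, (((k : ℝ) / n - 1) ^ 2 + (hG j : ℝ)) ^ (2 * sG b j) := by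
    refine Finset.prod_nonneg (fun j _ => ?_)
    have : (0 : ℝ) ≤ (hG j : ℝ) := by unfold hG; push_cast; positivity
    positivity
  have hPN := pow_le_pow_left₀ hP0 hP N
  have hPP0 : 0 ≤ PP i b := hP0.trans hP
  -- the residue
  have c1 := choose_le hx1 (k - 1) (4 * n)
  have c2 := choose_le hx2 (k - 1) (6 * n)
  have c3 := choose_le hx3 (7 * n - 1) (k - 5 * n - 1)
  have hRK : ((RK n k : ℚ) : ℝ) = ((k - 1).choose (4 * n) : ℝ) * ((k - 1).choose (6 * n) : ℝ) *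
      (7 * n) ^ 2 * ((7 * n - 1).choose (k - 5 * n - 1) : ℝ) ^ 2 := by
    rw [h2 hn hk]
    push_cast
    ring
  have i1 := inv_pos.2 hx1
  have i2 := inv_pos.2 hx2
  have i3 := inv_pos.2 hx3
  have hb1 : ((RK n k : ℚ) : ℝ) ≤ (((1 + x1 i) ^ (k - 1) * (x1 i)⁻¹ ^ (4 * n)) *
      ((1 + x2 i) ^ (k - 1) * (x2 i)⁻¹ ^ (6 * n))) * (7 * n) ^ 2 *
      ((1 + x3 i) ^ (2 * (7 * n - 1)) * (x3 i)⁻¹ ^ (2 * (k - 5 * n - 1))) := by
    rw [hRK]
    have c3' : ((7 * n - 1).choose (k - 5 * n - 1) : ℝ) ^ 2 ≤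
        (1 + x3 i) ^ (2 * (7 * n - 1)) * (x3 i)⁻¹ ^ (2 * (k - 5 * n - 1)) := by
      calc ((7 * n - 1).choose (k - 5 * n - 1) : ℝ) ^ 2 ≤
            ((1 + x3 i) ^ (7 * n - 1) * (x3 i)⁻¹ ^ (k - 5 * n - 1)) ^ 2 :=
              pow_le_pow_left₀ (by positivity) c3 2
        _ = _ := by
            rw [mul_pow, ← pow_mul, ← pow_mul, mul_comm (7 * n - 1) 2,
              mul_comm (k - 5 * n - 1) 2]
    have c12 := mul_le_mul c1 c2 (by positivity) (by positivity)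
    refine mul_le_mul ?_ c3' (by positivity) (by positivity)
    exact mul_le_mul_of_nonneg_right c12 (by positivity)
  have hb2 : (((1 + x1 i) ^ (k - 1) * (x1 i)⁻¹ ^ (4 * n)) *
      ((1 + x2 i) ^ (k - 1) * (x2 i)⁻¹ ^ (6 * n))) * (7 * (n : ℝ)) ^ 2 *
      ((1 + x3 i) ^ (2 * (7 * n - 1)) * (x3 i)⁻¹ ^ (2 * (k - 5 * n - 1))) ≤
      (((((1 + x1 i) ^ (361 + i)) ^ N * DD (1 + x1 i) ^ 2000) *
          (((x1 i)⁻¹ ^ 240) ^ N * DD (x1 i)⁻¹ ^ 2000)) *
        ((((1 + x2 i) ^ (361 + i)) ^ N * DD (1 + x2 i) ^ 2000) *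
          (((x2 i)⁻¹ ^ 360) ^ N * DD (x2 i)⁻¹ ^ 2000))) * (7 * (n : ℝ)) ^ 2 *
        ((((1 + x3 i) ^ 840) ^ N * DD (1 + x3 i) ^ 2000) *
          (((x3 i)⁻¹ ^ (2 * Ks i)) ^ N * DD (x3 i)⁻¹ ^ 2000)) := by
    have a1 := DD_pos (show 0 < 1 + x1 i by linarith)
    have a2 := DD_pos (show 0 < 1 + x2 i by linarith)
    have a3 := DD_pos (show 0 < 1 + x3 i by linarith)
    have b1 := DD_pos i1
    have b2 := DD_pos i2
    have b3 := DD_pos i3
    refine mul_le_mul (mul_le_mul_of_nonneg_right (mul_le_mul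
      (mul_le_mul p1 r1 (by positivity) (by positivity))
      (mul_le_mul p2 r2 (by positivity) (by positivity)) (by positivity) (by positivity))
      (by positivity)) (mul_le_mul p3 r3 (by positivity) (by positivity)) (by positivity)
      (by positivity)
  have hU := UR_le hi hb
  have hU0 : 0 ≤ UR i b := by unfold UR; positivity
  have hUN := pow_le_pow_left₀ hU0 hU N
  have hc := cst_pos hi
  have hnn : 0 ≤ 49 * cst i * (n : ℝ) ^ 2 :=
    mul_nonneg (mul_nonneg (by norm_num) hc.le) (sq_nonneg _)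
  calc ((RK n k : ℚ) : ℝ) * 2 ^ (tG b * N) *
      (∏ j ∈ Finset.range 10, (((k : ℝ) / n - 1) ^ 2 + (hG j : ℝ)) ^ (2 * sG b j)) ^ N
      ≤ ((((((1 + x1 i) ^ (361 + i)) ^ N * DD (1 + x1 i) ^ 2000) *
          (((x1 i)⁻¹ ^ 240) ^ N * DD (x1 i)⁻¹ ^ 2000)) *
        ((((1 + x2 i) ^ (361 + i)) ^ N * DD (1 + x2 i) ^ 2000) *
          (((x2 i)⁻¹ ^ 360) ^ N * DD (x2 i)⁻¹ ^ 2000))) * (7 * (n : ℝ)) ^ 2 *
        ((((1 + x3 i) ^ 840) ^ N * DD (1 + x3 i) ^ 2000) *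
          (((x3 i)⁻¹ ^ (2 * Ks i)) ^ N * DD (x3 i)⁻¹ ^ 2000))) * 2 ^ (tG b * N) * (PP i b) ^ N := by
        refine mul_le_mul (mul_le_mul_of_nonneg_right (hb1.trans hb2) (by positivity)) hPN
          (pow_nonneg hP0 N) ?_
        have a1 := DD_pos (show 0 < 1 + x1 i by linarith)
        have a2 := DD_pos (show 0 < 1 + x2 i by linarith)
        have a3 := DD_pos (show 0 < 1 + x3 i by linarith)
        have b1 := DD_pos i1
        have b2 := DD_pos i2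
        have b3 := DD_pos i3
        positivity
    _ = 49 * cst i * (n : ℝ) ^ 2 * (UR i b) ^ N := by
        unfold cst UR
        rw [show (2 : ℝ) ^ (tG b * N) = (2 ^ tG b) ^ N from pow_mul _ _ _]
        generalize (1 + x1 i) ^ (361 + i) = A1
        generalize (1 + x2 i) ^ (361 + i) = A2
        generalize (1 + x3 i) ^ 840 = A3
        generalize (x1 i)⁻¹ ^ 240 = B1
        generalize (x2 i)⁻¹ ^ 360 = B2
        generalize (x3 i)⁻¹ ^ (2 * Ks i) = B3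
        generalize DD (1 + x1 i) ^ 2000 = C1
        generalize DD (1 + x2 i) ^ 2000 = C2
        generalize DD (1 + x3 i) ^ 2000 = C3
        generalize DD (x1 i)⁻¹ ^ 2000 = D1
        generalize DD (x2 i)⁻¹ ^ 2000 = D2
        generalize DD (x3 i)⁻¹ ^ 2000 = D3
        generalize (2 : ℝ) ^ tG b = T
        simp only [mul_pow]
        ring
    _ ≤ 49 * cst i * (n : ℝ) ^ 2 * (2 ^ 2840) ^ N :=
        mul_le_mul_of_nonneg_left hUN hnn
    _ = 49 * cst i * (n : ℝ) ^ 2 * 2 ^ (2840 * N) := by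
        rw [pow_mul (2 : ℝ) 2840 N]

theorem R3_of (h2 : StR2) : StR3 := by
  refine ⟨49 * (1 + ∑ i ∈ Finset.range 360, cst i), 2, ?_, ?_⟩
  · have : 0 ≤ ∑ i ∈ Finset.range 360, cst i :=
      Finset.sum_nonneg fun i hi => (cst_pos (Finset.mem_range.1 hi)).le
    linarith
  · intro n k b hn hk hb
    have hk' := Finset.mem_Icc.1 hk
    set m := 60 * k - 360 * n - 1 with hm
    have h1 : m / n * n ≤ m := Nat.div_mul_le_self m n
    have h3 : m < (m / n + 1) * n := by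
      rw [mul_comm]
      exact Nat.lt_mul_div_succ m (by omega)
    have hi : m / n < 360 := by
      rw [Nat.div_lt_iff_lt_mul (by omega)]
      omega
    have hc := cell_bound h2 hn hk hb hi (by
        have : (360 + m / n) * n = 360 * n + m / n * n := by ring
        rw [this]; omega) (by
        have : (361 + m / n) * n = 360 * n + (m / n + 1) * n := by ring
        rw [this]; omega)
    refine hc.trans ?_
    have hle : cst (m / n) ≤ 1 + ∑ i ∈ Finset.range 360, cst i := by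
      have := Finset.single_le_sum (f := cst) (s := Finset.range 360)
        (fun i hi => (cst_pos (Finset.mem_range.1 hi)).le) (Finset.mem_range.2 hi)
      linarith
    have hUU : UU = 2840 := rfl
    rw [hUU]
    gcongr

end Pool.Agent.W638.Z3
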